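import Pool.Agent.H15.FLD.Targets
import Pool.Agent.H49.FLC.HLF

/-!
Row HL0 of fl3_modules (MP_c62aed_lc): the number of the half clauses inside `(A, x)`
(helper13; from `pf_HLF` of helper49 with `d = 0`).
-/

set_option autoImplicit false

namespace Pool.Agent.H13.FLD

open Finset
open Pool.Agent.H15.FLC Pool.Agent.H15.FLD

theorem pf_HL0 : T_HL0 := by
  intro β n k A x hβ hA
  have h := Pool.Agent.H49.FLC.pf_HLF β n k 0 A x hβ hA
  have e1 : (∑ j ∈ range (0 + 1), (k.choose j : ℝ)) = 1 := by simp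
  rw [e1, mul_one] at h
  refine le_trans (le_of_eq ?_) h
  have e2 : {c : Half n k | c.1.1 ⊆ A ∧ Violates c x} =
      {c : Half n k | c.1.1 ⊆ A ∧ (c.1.1.filter fun i => x i = c.2 i).card ≤ 0} := by
    ext c
    refine and_congr_right fun _ => ?_
    rw [Nat.le_zero, card_eq_zero, filter_eq_empty_iff]
    exact ⟨fun h i hi => h i hi, fun h i hi => h hi⟩
  exact congrArg (fun S : Set (Half n k) => ((Nat.card S : ℕ) : ℝ)) e2

end Pool.Agent.H13.FLD
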